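import Pool.Agent.KS6_41.Fit.Main

set_option autoImplicit false

namespace Pool.Agent.Results.MP_15f3fd_al.AnyRing

open MvPolynomial Classical

section
variable (R : Type*) [CommRing R] {n : ℕ} (Γ : SimpleGraph (Fin n))

/-- The non-edges of `Γ`, as increasing pairs. -/
abbrev NonEdge := {p : Fin n × Fin n // p.1 < p.2 ∧ ¬ Γ.Adj p.1 p.2}

/-- The increasing triples of vertices (the basis of `⋀³ V`). -/
abbrev Triple (n : ℕ) := {t : Fin n × Fin n × Fin n // t.1 < t.2.1 ∧ t.2.1 < t.2.2}

/-- The presentation matrix of the Koszul module of `Γ` over `R[x_1, …, x_n]`: the column of the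
triple `a < b < c` is the image of `x_c e_a∧e_b - x_b e_a∧e_c + x_a e_b∧e_c` in the free module on
the non-edges. -/
noncomputable def pres : Matrix (NonEdge Γ) (Triple n) (MvPolynomial (Fin n) R) :=
  Matrix.of fun p t => (if (t.1.1, t.1.2.1) = p.1 then X t.1.2.2 else 0) -
    (if (t.1.1, t.1.2.2) = p.1 then X t.1.2.1 else 0) +
    (if (t.1.2.1, t.1.2.2) = p.1 then X t.1.1 else 0)

/-- The zeroth Fitting ideal: the ideal generated by the maximal minors. -/
noncomputable def fitt : Ideal (MvPolynomial (Fin n) R) :=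
  Ideal.span {d | ∃ f : NonEdge Γ → Triple n, f.Injective ∧ d = ((pres R Γ).submatrix id f).det}

/-- The spanning tree ideal, generated by `∏ x_i ^ (deg_T(i) - 1)` over the spanning trees. -/
noncomputable def treeIdeal : Ideal (MvPolynomial (Fin n) R) :=
  Ideal.span {m | ∃ T : SimpleGraph (Fin n), T ≤ Γ ∧ T.IsTree ∧ m = ∏ i, X i ^ (T.degree i - 1)}

/-- The ideal generated by the variables. -/
noncomputable def varIdeal (n : ℕ) : Ideal (MvPolynomial (Fin n) R) := Ideal.span (Set.range X)

end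

open Pool.Agent.KS6_41.Fit Pool.Agent.KS6_41.Fit.L Matrix

theorem pres_eq (R : Type*) [CommRing R] {n : ℕ} (Γ : SimpleGraph (Fin n)) (p : NonEdge Γ)
    (t : Triple n) : pres R Γ p t = At X p.1.1 p.1.2 t.1 := by
  obtain ⟨⟨i, j⟩, hij, -⟩ := p
  obtain ⟨⟨a, b, c⟩, hab, hbc⟩ := t
  simp only at hij hab hbc
  have h : ∀ u v : Fin n, u < v → ¬ (v = i ∧ u = j) := by
    rintro u v h ⟨rfl, rfl⟩
    exact lt_asymm h hij
  simp [pres, At, e, h a b hab, h b c hbc, h a c (hab.trans hbc)]

theorem pres_map (R : Type*) [CommRing R] {n : ℕ} (Γ : SimpleGraph (Fin n))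
    (f : NonEdge Γ → Triple n) :
    ((pres R Γ).submatrix id f).det =
      MvPolynomial.map (Int.castRingHom R) ((pres ℤ Γ).submatrix id f).det := by
  rw [RingHom.map_det]
  congr 1
  ext r c
  simp only [pres, Matrix.submatrix_apply, Matrix.of_apply, RingHom.mapMatrix_apply,
    Matrix.map_apply, map_add, map_sub, apply_ite (MvPolynomial.map (Int.castRingHom R)),
    MvPolynomial.map_X, map_zero]

theorem At_sort' {R : Type*} [CommRing R] {V : Type} [LinearOrder V] (x : V → R)
    (t0 : {t : V × V × V // t.1 < t.2.1 ∧ t.2.1 < t.2.2}) (t : V × V × V) :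
    ∃ (s : {t : V × V × V // t.1 < t.2.1 ∧ t.2.1 < t.2.2}) (c : R), (c = 1 ∨ c = -1 ∨ c = 0) ∧
      ∀ i j, At x i j t = c * At x i j s.1 := by
  obtain ⟨a, b, c⟩ := t
  have e0 : ∀ i j a : V, (e i j a a : R) = 0 := fun i j a => by simp [e]
  rcases lt_trichotomy a b with h1 | rfl | h1
  · rcases lt_trichotomy b c with h2 | rfl | h2
    · exact ⟨⟨(a, b, c), h1, h2⟩, 1, by simp, fun i j => by simp⟩
    · exact ⟨t0, 0, by simp, fun i j => by simp [At, e0]⟩
    · rcases lt_trichotomy a c with h3 | rfl | h3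
      · exact ⟨⟨(a, c, b), h3, h2⟩, -1, by simp,
          fun i j => by simp only [At, e_swap i j c b]; ring⟩
      · exact ⟨t0, 0, by simp, fun i j => by simp only [At, e0, e_swap i j a b]; ring⟩
      · exact ⟨⟨(c, a, b), h3, h1⟩, 1, by simp, fun i j => by
          simp only [At, e_swap i j c b, e_swap i j c a]; ring⟩
  · exact ⟨t0, 0, by simp, fun i j => by simp [At, e0]⟩
  · rcases lt_trichotomy a c with h2 | rfl | h2
    · exact ⟨⟨(b, a, c), h1, h2⟩, -1, by simp,
        fun i j => by simp only [At, e_swap i j b a]; ring⟩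
    · exact ⟨t0, 0, by simp, fun i j => by simp only [At, e0, e_swap i j b a]; ring⟩
    · rcases lt_trichotomy b c with h3 | rfl | h3
      · exact ⟨⟨(b, c, a), h3, h2⟩, 1, by simp, fun i j => by
          simp only [At, e_swap i j b a, e_swap i j c a]; ring⟩
      · exact ⟨t0, 0, by simp, fun i j => by simp [At, e0]⟩
      · exact ⟨⟨(c, b, a), h3, h1⟩, -1, by simp, fun i j => by
          simp only [At, e_swap i j b a, e_swap i j c a, e_swap i j c b]; ring⟩

/-- Over the integers: a way of removing all non-edges gives a maximal minor that is, up to sign,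
the monomial of the labels. -/
theorem minor_of_clo {n : ℕ} (Γ : SimpleGraph (Fin n)) (Y : Multiset (Fin n))
    (h : Clo (Finset.univ.image (fun r : NE Γ => s(r.1.1, r.1.2))) Y)
    (t0 : NE Γ → Triple n) :
    ∃ f : NonEdge Γ → Triple n, f.Injective ∧
      ((Y.map (X : Fin n → MvPolynomial (Fin n) ℤ)).prod = ((pres ℤ Γ).submatrix id f).det ∨
       (Y.map (X : Fin n → MvPolynomial (Fin n) ℤ)).prod =
        -((pres ℤ Γ).submatrix id f).det) := by
  obtain ⟨f, hf⟩ := det_clo Γ (X : Fin n → MvPolynomial (Fin n) ℤ) Y h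
  choose s c hc hs using fun r : NE Γ =>
    At_sort' (X : Fin n → MvPolynomial (Fin n) ℤ) (t0 r) (f r)
  have h1 : (∏ r, c r) * ((pres ℤ Γ).submatrix id s).det =
      (Y.map (X : Fin n → MvPolynomial (Fin n) ℤ)).prod := by
    rw [← hf, ← det_mul_row]
    congr 1
    ext r c'
    rw [Matrix.of_apply, Matrix.of_apply, hs, Matrix.submatrix_apply, pres_eq]
    rfl
  have h0 : (Y.map (X : Fin n → MvPolynomial (Fin n) ℤ)).prod ≠ 0 := by
    rw [ne_eq, Multiset.prod_eq_zero_iff, Multiset.mem_map]
    rintro ⟨v, -, hv⟩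
    exact X_ne_zero v hv
  have hcne : ∀ r, c r ≠ 0 := by
    intro r hr
    rw [Finset.prod_eq_zero (Finset.mem_univ r) hr, zero_mul] at h1
    exact h0 h1.symm
  have hprod : (∏ r, c r) = 1 ∨ (∏ r, c r) = -1 := by
    refine Finset.prod_induction c (fun z => z = 1 ∨ z = -1) ?_ (Or.inl rfl) ?_
    · rintro a b (rfl | rfl) (rfl | rfl) <;> simp
    · intro r _
      rcases hc r with h2 | h2 | h2
      · exact Or.inl h2
      · exact Or.inr h2
      · exact absurd h2 (hcne r)
  refine ⟨s, ?_, ?_⟩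
  · by_contra hi
    obtain ⟨a, b, h7, h8⟩ := Function.not_injective_iff.1 hi
    apply h0
    rw [← h1, det_zero_of_column_eq h8 fun r => by simp [h7], mul_zero]
  · rcases hprod with h2 | h2
    · left; rw [← h1, h2, one_mul]
    · right; rw [← h1, h2, neg_one_mul]

/-- The product of the variables over `X + Y`. -/
theorem prod_split (R : Type*) [CommRing R] {n k : ℕ} {A B : Multiset (Fin n)}
    {T : SimpleGraph (Fin n)} {h : Fin k → Fin n}
    (hAB : A + B = ms (fun v => T.degree v - 1) + (Finset.univ : Finset (Fin k)).val.map h) :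
    (A.map (X : Fin n → MvPolynomial (Fin n) R)).prod *
      (B.map (X : Fin n → MvPolynomial (Fin n) R)).prod =
      (∏ i, X i ^ (T.degree i - 1)) * ∏ j, X (h j) := by
  rw [← Multiset.prod_add, ← Multiset.map_add, hAB, Multiset.map_add, Multiset.prod_add, prod_ms,
    Multiset.map_map]
  rfl

/-- Every maximal minor, in the range of many non-edges. -/
theorem minor_high {n : ℕ} (hn : 2 ≤ n) (Γ : SimpleGraph (Fin n)) (k : ℕ)
    (hk : Fintype.card (NE Γ) + 2 = n + k) (f : NonEdge Γ → Triple n) :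
    ((pres ℤ Γ).submatrix id f).det = 0 ∨ ∃ (T : SimpleGraph (Fin n)) (h : Fin k → Fin n) (c : ℤ),
      T ≤ Γ ∧ T.IsTree ∧ ((pres ℤ Γ).submatrix id f).det =
        (c : MvPolynomial (Fin n) ℤ) * ((∏ i, X i ^ (T.degree i - 1)) * ∏ j, X (h j)) := by
  have : Nontrivial (Fin n) := Fin.nontrivial_iff_two_le.2 hn
  have h0 : (pres ℤ Γ).submatrix id f = of fun r c : NE Γ => At X r.1.1 r.1.2 (f c).1 :=
    Matrix.ext fun r c => pres_eq ℤ Γ r (f c)
  have h1 := det_scale (X : Fin n → MvPolynomial (Fin n) ℤ) (fun r : NE Γ => r.1.1)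
    (fun r => r.1.2) fun c => (f c).1
  have hne : (∏ r : NE Γ, (X r.1.1 * X r.1.2 : MvPolynomial (Fin n) ℤ)) ≠ 0 :=
    Finset.prod_ne_zero_iff.2 fun r : NE Γ => fun _ => mul_ne_zero (X_ne_zero r.1.1)
      (X_ne_zero r.1.2)
  rw [h0]
  by_cases hc : cf Γ (fun c => (f c).1) = 0
  · left
    rw [cf] at hc
    rw [hc, Int.cast_zero, mul_zero] at h1
    exact (mul_eq_zero.1 h1).resolve_left hne
  · right
    obtain ⟨T, h, h2, h3, h4⟩ := (key Γ k hk _).1 ⟨_, hc, rfl⟩
    refine ⟨T, h, cf Γ (fun c => (f c).1), h2, h3, ?_⟩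
    refine mul_left_cancel₀ hne (h1.trans ?_)
    have h5 := congrArg (monomialOneHom ℤ (Fin n)) h4
    simp only [tM, rM, map_mul, map_prod, map_pow, phi_g] at h5
    rw [← h5, cf]
    ring

/-- Every maximal minor, in the range of few non-edges. -/
theorem minor_low {n : ℕ} (hn : 2 ≤ n) (Γ : SimpleGraph (Fin n)) (k : ℕ)
    (hk : Fintype.card (NE Γ) + 2 + k = n) (f : NonEdge Γ → Triple n) (h : Fin k → Fin n) :
    ((pres ℤ Γ).submatrix id f).det = 0 ∨ ∃ (T : SimpleGraph (Fin n)) (c : ℤ),
      T ≤ Γ ∧ T.IsTree ∧ ((pres ℤ Γ).submatrix id f).det * ∏ j, X (h j) =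
        (c : MvPolynomial (Fin n) ℤ) * ∏ i, X i ^ (T.degree i - 1) := by
  have : Nontrivial (Fin n) := Fin.nontrivial_iff_two_le.2 hn
  have h0 : (pres ℤ Γ).submatrix id f = of fun r c : NE Γ => At X r.1.1 r.1.2 (f c).1 :=
    Matrix.ext fun r c => pres_eq ℤ Γ r (f c)
  have h1 := det_scale (X : Fin n → MvPolynomial (Fin n) ℤ) (fun r : NE Γ => r.1.1)
    (fun r => r.1.2) fun c => (f c).1
  have hne : (∏ r : NE Γ, (X r.1.1 * X r.1.2 : MvPolynomial (Fin n) ℤ)) ≠ 0 :=
    Finset.prod_ne_zero_iff.2 fun r : NE Γ => fun _ => mul_ne_zero (X_ne_zero r.1.1)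
      (X_ne_zero r.1.2)
  rw [h0]
  by_cases hc : cf Γ (fun c => (f c).1) = 0
  · left
    rw [cf] at hc
    rw [hc, Int.cast_zero, mul_zero] at h1
    exact (mul_eq_zero.1 h1).resolve_left hne
  · right
    obtain ⟨T, h2, h3, h4⟩ := key' Γ k hk _ hc h
    refine ⟨T, cf Γ (fun c => (f c).1), h2, h3, ?_⟩
    refine mul_left_cancel₀ hne ?_
    rw [← mul_assoc, h1]
    have h5 := congrArg (monomialOneHom ℤ (Fin n)) h4
    simp only [tM, rM, map_mul, map_prod, map_pow, phi_g] at h5
    rw [cf]
    linear_combination (-(((of fun r c : NE Γ => At (fun _ => (1 : ℤ)) r.1.1 r.1.2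
      (f c).1).det : ℤ) : MvPolynomial (Fin n) ℤ)) * h5

theorem map_tree (R : Type*) [CommRing R] {n : ℕ} (T : SimpleGraph (Fin n)) :
    MvPolynomial.map (Int.castRingHom R) (∏ i, X i ^ (T.degree i - 1)) =
      ∏ i, (X i : MvPolynomial (Fin n) R) ^ (T.degree i - 1) := by
  simp [map_prod, map_pow]

/-- **Fitting ideal of the Koszul module of a graph over an arbitrary commutative ring.**
Let `Γ` be a simple graph on `n ≥ 2` vertices with `N` non-edges and `R` a commutative ring.
(1) If `N ≥ n - 2` then `Fitt W_Γ = I_T(Γ) · 𝔪 ^ (N - (n - 2))`.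
(2) If `N ≤ n - 2` then `I_T(Γ) = Fitt W_Γ · 𝔪 ^ ((n - 2) - N)`.
(3) If `N ≥ n - 2`, then every generator `m_T · x_{h 1} ⋯ x_{h k}`, `k = N - (n - 2)`, of the
right-hand side of (1) is, up to sign, itself one of the maximal minors of the presentation
matrix. -/
theorem result (R : Type*) [CommRing R] (n : ℕ) (hn : 2 ≤ n) (Γ : SimpleGraph (Fin n)) :
    (n - 2 ≤ Fintype.card (NonEdge Γ) →
      fitt R Γ = treeIdeal R Γ * varIdeal R n ^ (Fintype.card (NonEdge Γ) - (n - 2))) ∧
    (Fintype.card (NonEdge Γ) ≤ n - 2 →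
      treeIdeal R Γ = fitt R Γ * varIdeal R n ^ ((n - 2) - Fintype.card (NonEdge Γ))) ∧
    (n - 2 ≤ Fintype.card (NonEdge Γ) →
      ∀ T : SimpleGraph (Fin n), T ≤ Γ → T.IsTree →
        ∀ h : Fin (Fintype.card (NonEdge Γ) - (n - 2)) → Fin n,
          ∃ f : NonEdge Γ → Triple n, f.Injective ∧
            ((∏ i, X i ^ (T.degree i - 1)) * ∏ j, X (h j) = ((pres R Γ).submatrix id f).det ∨
             (∏ i, X i ^ (T.degree i - 1)) * ∏ j, X (h j) =
              -((pres R Γ).submatrix id f).det)) := by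
  have hT0 : ∀ r : NE Γ, Nonempty (Triple n) ∨ n = 2 := by
    intro r
    by_cases h : n = 2
    · exact Or.inr h
    · exact Or.inl ⟨⟨(⟨0, by omega⟩, ⟨1, by omega⟩, ⟨2, by omega⟩), by simp, by simp⟩⟩
  -- spanning trees give minors
  have main : ∀ T : SimpleGraph (Fin n), T ≤ Γ → T.IsTree → ∀ (k : ℕ) (h : Fin k → Fin n),
      Fintype.card (NE Γ) + 2 ≤ n + k → ∃ (A B : Multiset (Fin n)) (f : NonEdge Γ → Triple n),
        A + B = ms (fun v => T.degree v - 1) + (Finset.univ : Finset (Fin k)).val.map h ∧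
        B.card + Fintype.card (NE Γ) + 2 = n + k ∧ f.Injective ∧
        ((A.map (X : Fin n → MvPolynomial (Fin n) R)).prod = ((pres R Γ).submatrix id f).det ∨
         (A.map (X : Fin n → MvPolynomial (Fin n) R)).prod =
          -((pres R Γ).submatrix id f).det) := by
    intro T hT hTT k h hk
    obtain ⟨A, B, h1, h2, h3, h4⟩ := exists_clo hn Γ T hT hTT k h hk
    have t0 : NE Γ → Triple n := by
      intro r
      refine Classical.choice ((hT0 r).resolve_right ?_)
      rintro rfl
      -- on two vertices a graph with a spanning tree has no non-edge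
      have hadj : T.Adj 0 1 := by
        obtain ⟨w⟩ := hTT.connected.preconnected 0 1
        cases w with
        | cons hadj q =>
          rename_i v
          fin_cases v
          · exact absurd rfl hadj.ne
          · exact hadj
      obtain ⟨⟨i, j⟩, hij, hna⟩ := r
      simp only at hij hna
      have hi : i = 0 := by omega
      have hj : j = 1 := by omega
      subst hi hj
      exact hna (hT hadj)
    obtain ⟨f, hf, h5⟩ := minor_of_clo Γ A h4 t0
    have hmapA : MvPolynomial.map (Int.castRingHom R)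
        (A.map (X : Fin n → MvPolynomial (Fin n) ℤ)).prod =
        (A.map (X : Fin n → MvPolynomial (Fin n) R)).prod := by
      rw [map_multiset_prod, Multiset.map_map]
      congr 1
      refine Multiset.map_congr rfl fun v _ => ?_
      simp
    refine ⟨A, B, f, h2, h3, hf, ?_⟩
    rw [pres_map, ← hmapA]
    rcases h5 with h5 | h5
    · left; rw [h5]
    · right; rw [h5, map_neg]
  have hmem : ∀ (a : MvPolynomial (Fin n) R) (f : NonEdge Γ → Triple n), f.Injective →
      (a = ((pres R Γ).submatrix id f).det ∨ a = -((pres R Γ).submatrix id f).det) →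
      a ∈ fitt R Γ := by
    rintro a f hf (rfl | rfl)
    · exact Ideal.subset_span ⟨f, hf, rfl⟩
    · exact neg_mem (Ideal.subset_span ⟨f, hf, rfl⟩)
  have hvar : ∀ (k : ℕ) (h : Fin k → Fin n), (∏ j, (X (h j) : MvPolynomial (Fin n) R)) ∈
      varIdeal R n ^ k := by
    intro k h
    have := Ideal.prod_mem_prod (s := Finset.univ) (I := fun _ : Fin k => varIdeal R n)
      (x := fun j => (X (h j) : MvPolynomial (Fin n) R)) fun j _ => Ideal.subset_span ⟨_, rfl⟩
    simpa using this
  have hvar' : ∀ B : Multiset (Fin n), (B.map (X : Fin n → MvPolynomial (Fin n) R)).prod ∈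
      varIdeal R n ^ B.card := by
    intro B
    induction B using Multiset.induction_on with
    | empty => simp
    | cons a B ih =>
      rw [Multiset.map_cons, Multiset.prod_cons, Multiset.card_cons, pow_succ']
      exact Ideal.mul_mem_mul (Ideal.subset_span ⟨a, rfl⟩) ih
  refine ⟨fun hN => ?_, fun hN => ?_, fun hN T hT hTT h => ?_⟩
  · set k := Fintype.card (NonEdge Γ) - (n - 2) with hkdef
    have hk : Fintype.card (NE Γ) + 2 = n + k := by
      show Fintype.card (NonEdge Γ) + 2 = n + k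
      omega
    apply le_antisymm
    · rw [fitt, Ideal.span_le]
      rintro _ ⟨f, -, rfl⟩
      rw [SetLike.mem_coe, pres_map]
      rcases minor_high hn Γ k hk f with h1 | ⟨T, h, c, hT, hTT, h1⟩
      · rw [h1, map_zero]
        exact Ideal.zero_mem _
      · rw [h1, map_mul, map_mul]
        refine Ideal.mul_mem_left _ _ (Ideal.mul_mem_mul (Ideal.subset_span ⟨T, hT, hTT, ?_⟩) ?_)
        · exact map_tree R T
        · have := hvar k h
          simpa [map_prod] using this
    · rw [treeIdeal, varIdeal, Ideal.span, Ideal.span, Submodule.span_pow,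
        Submodule.span_mul_span, Submodule.span_le]
      rintro _ ⟨_, ⟨T, hT, hTT, rfl⟩, u, hu, rfl⟩
      obtain ⟨w, hw, rfl⟩ := Set.mem_pow_iff_prod.1 hu
      choose h hh using hw
      obtain ⟨A, B, f, h1, h2, h3, h4⟩ := main T hT hTT k h (by omega)
      have hB : B = 0 := by
        rw [← Multiset.card_eq_zero]; omega
      have h5 := prod_split R h1
      rw [hB, Multiset.map_zero, Multiset.prod_zero, mul_one] at h5
      have h6 : (∏ i, w i) = ∏ j, (X (h j) : MvPolynomial (Fin n) R) :=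
        Finset.prod_congr rfl fun j _ => (hh j).symm
      show (∏ i, X i ^ (T.degree i - 1)) * (∏ i, w i) ∈ _
      rw [h6, ← h5]
      exact hmem _ f h3 h4
  · set k := (n - 2) - Fintype.card (NonEdge Γ) with hkdef
    have hk : Fintype.card (NE Γ) + 2 + k = n := by
      show Fintype.card (NonEdge Γ) + 2 + k = n
      omega
    apply le_antisymm
    · rw [treeIdeal, Ideal.span_le]
      rintro _ ⟨T, hT, hTT, rfl⟩
      obtain ⟨A, B, f, h1, h2, h3, h4⟩ := main T hT hTT 0 Fin.elim0 (by omega)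
      have h5 := prod_split R h1
      rw [Finset.univ_eq_empty (α := Fin 0), Finset.prod_empty, mul_one] at h5
      rw [SetLike.mem_coe, ← h5]
      have hBk : B.card = k := by omega
      rw [← hBk]
      exact Ideal.mul_mem_mul (hmem _ f h3 h4) (hvar' B)
    · rw [fitt, varIdeal, Ideal.span, Ideal.span, Submodule.span_pow,
        Submodule.span_mul_span, Submodule.span_le]
      rintro _ ⟨_, ⟨f, hf, rfl⟩, u, hu, rfl⟩
      obtain ⟨w, hw, rfl⟩ := Set.mem_pow_iff_prod.1 hu
      choose h hh using hw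
      have h6 : (∏ i, w i) = MvPolynomial.map (Int.castRingHom R) (∏ j, X (h j)) := by
        rw [map_prod]
        refine Finset.prod_congr rfl fun j _ => ?_
        rw [MvPolynomial.map_X]
        exact (hh j).symm
      show ((pres R Γ).submatrix id f).det * (∏ i, w i) ∈ _
      rw [h6, pres_map, ← map_mul]
      rcases minor_low hn Γ k hk f h with h1 | ⟨T, c, hT, hTT, h1⟩
      · rw [h1, zero_mul, map_zero]
        exact Ideal.zero_mem _
      · rw [h1, map_mul]
        exact Ideal.mul_mem_left _ _ (Ideal.subset_span ⟨T, hT, hTT, map_tree R T⟩)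
  · have hk : Fintype.card (NE Γ) + 2 = n + (Fintype.card (NonEdge Γ) - (n - 2)) := by
      show Fintype.card (NonEdge Γ) + 2 = _
      omega
    obtain ⟨A, B, f, h1, h2, h3, h4⟩ := main T hT hTT _ h (by omega)
    have hB : B = 0 := by
      rw [← Multiset.card_eq_zero]; omega
    have h5 := prod_split R h1
    rw [hB, Multiset.map_zero, Multiset.prod_zero, mul_one] at h5
    exact ⟨f, h3, by rwa [← h5]⟩

end Pool.Agent.Results.MP_15f3fd_al.AnyRing
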